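import Pool.Agent.Run7.h290.SH.We

set_option autoImplicit false

/-!
# MP_80d0cf_nt: the high moments of averages of zeta near the critical line, an analogue of Wiener's lemma

Let `δ(T) → 0+` with `δ log T / log² (1/δ) → ∞`, `k ≥ 1` real, `μ` any finite Borel measure on the line and `g` a bounded
measurable complex function (so `g dμ` is an arbitrary finite complex measure). Then
`(2δ)^(k²) (1/T) ∫_0^T |∫ ζ(1/2 + δ + i(t + x)) g(x) dμ(x)|^(2k) dt → a(k) ∑_x |g(x) μ({x})|^(2k)`:
only the atoms of the measure count. The points `t + x` with `|ζ| > (2δ)^(-V)` are left out, for any `V > k`, and the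
inner integral is over `|x| ≤ √T`; for `k ≤ 2` and measures of bounded support nothing is left out.

For a unit mass this is the asymptotic formula for the moment of order `2k` near the line. For a measure without atoms (an
average over an interval, over a Cantor set, ...) the limit is zero. For `k = 1` and the second moment it corresponds to
Wiener's lemma.
-/

open Filter Topology MeasureTheory

namespace Pool.Agent.Results.MP_80d0cf_nt.AveragesOverMeasures

/-- the coefficients `Γ(k + m) / (Γ(k) m!)` of `(1 - x)^(-k)` -/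
noncomputable def dd (k : ℝ) (m : ℕ) : ℝ := Real.Gamma (k + m) / (Real.Gamma k * (m.factorial : ℝ))

/-- the arithmetic factor of the conjecture for the moment of order `2k` -/
noncomputable def ak (k : ℝ) : ℝ :=
  ∏' p : Nat.Primes, ((1 - 1 / (p : ℝ)) ^ (k ^ 2) * ∑' m : ℕ, dd k m ^ 2 / (p : ℝ) ^ m)

/-- `ζ(1/2 + δ + it)` -/
noncomputable def z (δ t : ℝ) : ℂ := riemannZeta (1 / 2 + δ + Complex.I * (t : ℂ))

open scoped Classical in
/-- `ζ(1/2 + δ + it)` if its modulus is at most `(2δ)^(-V)`, otherwise zero -/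
noncomputable def zV (V δ t : ℝ) : ℂ := if ‖z δ t‖ ≤ (2 * δ) ^ (-V) then z δ t else 0

/-- `(2δ)^(k²) (1/T) ∫_0^T |A(t)|^(2k) dt` -/
noncomputable def mean (k δ T : ℝ) (A : ℝ → ℂ) : ℝ := (2 * δ) ^ (k ^ 2) * ((1 / T) * ∫ t in Set.Icc 0 T, ‖A t‖ ^ (2 * k))

/-- the mass (in modulus) of the complex measure `g dμ` at the point `x` -/
noncomputable def atom (μ : Measure ℝ) (g : ℝ → ℂ) (x : ℝ) : ℝ := ‖g x‖ * μ.real {x}

theorem result (δ : ℝ → ℝ) (hδ0 : ∀ᶠ T in atTop, 0 < δ T) (hδ : Tendsto δ atTop (𝓝 0))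
    (hδL : Tendsto (fun T : ℝ => δ T * Real.log T / Real.log (1 / δ T) ^ 2) atTop atTop) (k : ℝ) (hk : 1 ≤ k)
    (μ : Measure ℝ) [IsFiniteMeasure μ] (g : ℝ → ℂ) (hg : Measurable g) (hgb : ∃ M : ℝ, ∀ x, ‖g x‖ ≤ M) :
    0 < ak k ∧ Summable (fun x : ℝ => atom μ g x ^ (2 * k)) ∧
    (∑' x : ℝ, atom μ g x ^ (2 * k) = 0 ↔ ∀ x, atom μ g x = 0) ∧
    (∀ V : ℝ, k < V → Tendsto (fun T : ℝ => mean k (δ T) T fun t => ∫ x in Set.Icc (-√T) √T, g x * zV V (δ T) (t + x) ∂μ) atTop
      (𝓝 (ak k * ∑' x : ℝ, atom μ g x ^ (2 * k)))) ∧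
    (k ≤ 2 → (∃ B : ℝ, μ (Set.Icc (-B) B)ᶜ = 0) →
      Tendsto (fun T : ℝ => mean k (δ T) T fun t => ∫ x, g x * z (δ T) (t + x) ∂μ) atTop
        (𝓝 (ak k * ∑' x : ℝ, atom μ g x ^ (2 * k)))) := by
  have hk0 : 0 < k := by linarith
  have hp : 0 < 2 * k := by linarith
  have e1 : ∀ m : ℕ, dd k m = Pool.Agent.H306R2.lc k m := by
    intro m
    unfold dd
    have hG : Real.Gamma k ≠ 0 := (Real.Gamma_pos_of_pos hk0).ne'
    induction m with
    | zero =>
      unfold Pool.Agent.H306R2.lc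
      simp [hG]
    | succ m ih =>
      have h1 : Pool.Agent.H306R2.lc k (m + 1) = Pool.Agent.H306R2.lc k m * ((k + m) / ((m : ℝ) + 1)) := by
        unfold Pool.Agent.H306R2.lc
        rw [Finset.prod_range_succ]
      have hkm : k + (m : ℝ) ≠ 0 := by positivity
      have h2 : Real.Gamma (k + ((m + 1 : ℕ) : ℝ)) = (k + m) * Real.Gamma (k + m) := by
        rw [← Real.Gamma_add_one hkm]
        congr 1
        push_cast
        ring
      have hf : (m.factorial : ℝ) ≠ 0 := by positivity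
      rw [h1, ← ih, h2, Nat.factorial_succ]
      push_cast
      field_simp
  have e3 : ak k = Pool.Agent.H306R2.aF k := by
    unfold ak Pool.Agent.H306R2.aF
    refine tprod_congr fun p => ?_
    simp_rw [e1, one_div, inv_pow, div_eq_mul_inv]
  have e4 : (Pool.Agent.N748.MG.aC k).re = ak k := by
    rw [e3]
    exact Pool.Agent.Run7.h290.SH.aC_aF k
  have ez : ∀ d t : ℝ, z d t = riemannZeta (Pool.Agent.N748.MG.pw d t) := by
    intro d t
    unfold z Pool.Agent.N748.MG.pw
    congr 1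
    ring
  have ezj : ∀ d t u : ℝ, z d (t + u) = Pool.Agent.Run7.h290.SH.zj d t u := by
    intro d t u
    rw [ez]
    rfl
  have ezV : ∀ V d t : ℝ, zV V d t = Pool.Agent.Run7.h290.SH.tz V d t := by
    intro V d t
    unfold zV
    by_cases h : ‖z d t‖ ≤ (2 * d) ^ (-V)
    · have h' : Pool.Agent.N748.MG.mz d t ≤ (2 * d) ^ (-V) := by
        unfold Pool.Agent.N748.MG.mz
        rwa [← ez]
      rw [if_pos h, Pool.Agent.Run7.h290.SH.tz_of_le h', ez]
    · have h' : ¬ Pool.Agent.N748.MG.mz d t ≤ (2 * d) ^ (-V) := by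
        unfold Pool.Agent.N748.MG.mz
        rwa [← ez]
      rw [if_neg h, Pool.Agent.Run7.h290.SH.tz_of_lt h']
  have hd : Pool.Agent.N748.MG.Ad δ := ⟨hδ0, hδ, hδL⟩
  obtain ⟨M0, hM⟩ := hgb
  have hM0 : 0 ≤ M0 := (norm_nonneg _).trans (hM 0)
  have ha0 : ∀ x, 0 ≤ atom μ g x := fun x => mul_nonneg (norm_nonneg _) measureReal_nonneg
  have hsum : Summable fun x : ℝ => μ.real {x} := by
    refine summable_of_sum_le (fun x => measureReal_nonneg) (c := μ.real Set.univ) fun u => ?_
    rw [sum_measureReal_singleton]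
    exact measureReal_mono (Set.subset_univ _)
  have hws : Summable fun x : ℝ => atom μ g x ^ (2 * k) := by
    refine Summable.of_nonneg_of_le (fun x => Real.rpow_nonneg (ha0 x) _) (fun x => ?_)
      ((hsum.mul_left M0).mul_left ((M0 * μ.real Set.univ) ^ (2 * k - 1)))
    have y1 : atom μ g x ≤ M0 * μ.real {x} := mul_le_mul_of_nonneg_right (hM x) measureReal_nonneg
    have y2 : atom μ g x ≤ M0 * μ.real Set.univ :=
      y1.trans (mul_le_mul_of_nonneg_left (measureReal_mono (Set.subset_univ _)) hM0)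
    have e2 : atom μ g x ^ (2 * k) = atom μ g x ^ (2 * k - 1) * atom μ g x := by
      conv_rhs => rw [← Real.rpow_one (atom μ g x)]
      rw [← Real.rpow_mul (ha0 x), one_mul, ← Real.rpow_add_of_nonneg (ha0 x) (by linarith) (by norm_num)]
      congr 1
      ring
    rw [e2]
    exact mul_le_mul (Real.rpow_le_rpow (ha0 x) y2 (by linarith)) y1 (ha0 x) (by positivity)
  refine ⟨by rw [e3]; exact Pool.Agent.H306R2.aF_pos hk0, hws, ?_, fun V hV => ?_, ?_⟩
  · constructor
    · intro h x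
      have h1 := (hasSum_zero_iff_of_nonneg fun x => Real.rpow_nonneg (ha0 x) (2 * k)).mp (h ▸ hws.hasSum)
      have h2 : atom μ g x ^ (2 * k) = 0 := congrFun h1 x
      exact (Real.rpow_eq_zero (ha0 x) hp.ne').mp h2
    · intro h
      simp_rw [h, Real.zero_rpow hp.ne']
      exact tsum_zero
  · have h1 := Pool.Agent.Run7.h290.SH.avg_line hd hk hV μ hg hM
    rw [e4] at h1
    refine h1.congr fun T => ?_
    unfold mean
    simp_rw [ezV, Real.sqrt_eq_rpow]
  · rintro hk2 ⟨B, hB⟩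
    have hB' : μ (Set.Icc (-|B|) |B|)ᶜ = 0 :=
      measure_mono_null (Set.compl_subset_compl.mpr (Set.Icc_subset_Icc (neg_le_neg (le_abs_self B)) (le_abs_self B))) hB
    have h1 := Pool.Agent.Run7.h290.SH.avg_full hd hk hk2 (abs_nonneg B) μ hB' hg hM
    rw [e4] at h1
    refine h1.congr fun T => ?_
    unfold mean
    simp_rw [ezj]

end Pool.Agent.Results.MP_80d0cf_nt.AveragesOverMeasures
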