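import Pool.Agent.Run7.h291.WL.E7
import Pool.Agent.Run7.h291.WL.D2
import Pool.Agent.Run7.h291.WC.Supw
import Pool.Agent.Run7.h42.WN_MNB
import Pool.Agent.Run7.h772.WN_ZML

set_option autoImplicit false

/-!
# Large values of zeta in almost all windows near the critical line

Let `V > 0` and `δ → 0`, `δ log T / log² (1/δ) → ∞`. The proportion of `u ∈ [0, T]` with
`|ζ(1/2 + δ + iu)| > c (2δ)^(-V)` is asymptotically `c^(-2V) a(V) (2δ)^(V²) / (2 V √(π log (1/(2δ))))`. It is proved here that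
for almost all `t ∈ [0, T]` this exact asymptotic formula holds for the windows `[t, t + H]`, for all lengths
`δ^(-θ) ≤ H ≤ δ^(-D)` and all `c` in a compact set at once, as soon as `θ > 0` and `θ > V² - 1`; and that this is sharp: if
`0 ≤ θ < V² - 1`, then almost all windows of length `δ^(-θ)` contain no value of size `(2δ)^(-V)` at all.

Plan and proof by helper291; the mean of the two-point function over long intervals (`S_MNB`) and the argument for large
values in windows (`S_SUPW`) by helper42; the moments of zeta without small primes near the line `1` (`S_ZML`) by helper772;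
the continuity of the arithmetic factor (`S_EQC`) by helper651; the maximal inequality is by helper311; the joint moments
outside tiny sets and the large deviations on `[0, T]` are the starting library `N748`.
-/

namespace Pool.Agent.Results.MP_80d0cf_nt.LargeValuesInWindows

open MeasureTheory Filter Topology

/-- the arithmetic factor of the moment conjecture,
`a(k) = ∏_p (1 - 1/p)^(k²) ∑_m (k (k+1) ... (k+m-1) / m!)² p^(-m)` -/
noncomputable def ak (k : ℝ) : ℝ :=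
  ∏' p : Nat.Primes, ((1 - 1 / (p : ℝ)) ^ (k ^ 2) *
    ∑' m : ℕ, (∏ i ∈ Finset.range m, (k + i) / ((i : ℝ) + 1)) ^ 2 * (1 / (p : ℝ)) ^ m)

/-- the modulus of zeta at distance `δ` from the critical line and height `u` -/
noncomputable def z (δ u : ℝ) : ℝ := ‖riemannZeta (1 / 2 + δ + u * Complex.I)‖

/-- the measure of the set of the large values in the window `[t, t + H]` -/
noncomputable def L (V c δ t H : ℝ) : ℝ := volume.real {u : ℝ | u ∈ Set.Icc t (t + H) ∧ c * (2 * δ) ^ (-V) < z δ u}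

/-- the prediction for the proportion of the large values -/
noncomputable def Q (V δ : ℝ) : ℝ := ak V * (2 * δ) ^ (V ^ 2) / (2 * V * Real.sqrt (Real.pi * Real.log (1 / (2 * δ))))

open Run7.h291.WN Run7.h291.WL Pool.Agent.N748.MG

theorem result (V D A : ℝ) (hV : 0 < V) (hA : 1 ≤ A) (ε : ℝ) (hε : 0 < ε) :
    0 < ak V ∧
    (∀ θ : ℝ, 0 < θ → V ^ 2 - 1 < θ → ∃ lam δ0 : ℝ, 0 < lam ∧ 0 < δ0 ∧ δ0 ≤ 1 / 16 ∧ ∀ᶠ T : ℝ in atTop,
      ∀ δ : ℝ, 0 < δ → δ ≤ δ0 → lam * Real.log (1 / δ) ^ 2 ≤ δ * Real.log T →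
      volume {t : ℝ | t ∈ Set.Icc 0 T ∧ ¬ ∀ H ∈ Set.Icc (δ ^ (-θ)) (δ ^ (-D)), ∀ c ∈ Set.Icc (1 / A) A,
        |L V c δ t H / (H * Q V δ) - c ^ (-(2 * V))| < ε} ≤ ENNReal.ofReal (ε * T)) ∧
    (∀ θ : ℝ, 0 ≤ θ → θ < V ^ 2 - 1 → ∃ lam δ0 : ℝ, 0 < lam ∧ 0 < δ0 ∧ δ0 ≤ 1 / 16 ∧ ∀ᶠ T : ℝ in atTop,
      ∀ δ : ℝ, 0 < δ → δ ≤ δ0 → lam * Real.log (1 / δ) ^ 2 ≤ δ * Real.log T →
      volume {t : ℝ | t ∈ Set.Icc 0 T ∧ ∃ u ∈ Set.Icc t (t + δ ^ (-θ)), (1 / A) * (2 * δ) ^ (-V) ≤ z δ u} ≤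
        ENNReal.ofReal (ε * T)) := by
  have hM := Run7.h42.WN.mnb Run7.h772.zml
  have ha := akp V
  refine ⟨ha, fun θ h0 h1 => ?_, fun θ h0 h1 => ?_⟩
  · refine (count hM ll1 ll2 V θ (max D 0) A hV (by
      rcases le_total 1 (V ^ 2) with h | h
      · rw [max_eq_right h]
        exact h1
      · rw [max_eq_left h]
        linarith) (le_max_right _ _) hA ε hε).mono ?_
    intro T δ hT hδ hδ1 hvol
    refine le_trans (measure_mono ?_) hvol
    rintro t ⟨⟨t0, t1⟩, ht⟩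
    push Not at ht
    obtain ⟨H, ⟨hH1, hH2⟩, c, ⟨hc1, hc2⟩, ht⟩ := ht
    exact ⟨t0, t1, H, hH1, hH2.trans (Real.rpow_le_rpow_of_exponent_ge hδ (by linarith) (neg_le_neg (le_max_left _ _))),
      c, hc1, hc2, ht⟩
  · obtain ⟨C, hC, hS⟩ := Run7.h291.WC.supw V hV (θ + 1) (by linarith)
    have hη : 0 < V ^ 2 - 1 - θ := by linarith
    set C' : ℝ := C * (A ^ (2 * V) * 2 ^ (2 * V ^ 2)) with hC'
    refine (((hS.and (Ev.small (C := C') (c := V ^ 2 - 1 - θ) hη (half_pos hε))).and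
      (Ev.of_le (half_pos hε))).and (Ev.small (C := 2 * (A * 2 ^ V)) (c := V) hV one_pos)).mono ?_
    rintro T δ hT hδ hδ1 ⟨⟨⟨hS, hsm⟩, hδε⟩, hsm2⟩
    have hA0 : 0 < A := by linarith
    have hH1 : 1 ≤ δ ^ (-θ) := Real.one_le_rpow_of_pos_of_le_one_of_nonpos hδ (by linarith) (by linarith)
    have h2δ : (2 * δ) ^ (-V) = (2:ℝ) ^ (-V) * δ ^ (-V) := Real.mul_rpow (by norm_num) hδ.le
    have hVV : δ ^ V * δ ^ (-V) = 1 := by
      rw [← Real.rpow_add hδ, add_neg_cancel, Real.rpow_zero]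
    have h2V : (2:ℝ) ^ V * (2:ℝ) ^ (-V) = 1 := by
      rw [← Real.rpow_add (by norm_num), add_neg_cancel, Real.rpow_zero]
    have p1 : (0:ℝ) < δ ^ (-V) := Real.rpow_pos_of_pos hδ _
    have p2 : (0:ℝ) < (2:ℝ) ^ (-V) := Real.rpow_pos_of_pos (by norm_num) _
    set κ : ℝ := (1 / A) * (2 * δ) ^ (-V) with hκ
    have hκ0 : 0 < κ := by rw [hκ, h2δ]; positivity
    have hκ2 : 2 ≤ κ := by
      have e1 : 2 * (A * 2 ^ V) * δ ^ V * κ = 2 * (δ ^ V * δ ^ (-V)) * ((2:ℝ) ^ V * (2:ℝ) ^ (-V)) := by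
        rw [hκ, h2δ]
        field_simp
      rw [hVV, h2V] at e1
      have := mul_le_mul_of_nonneg_right hsm2 hκ0.le
      linarith
    refine (measure_mono ?_).trans ((hS (δ ^ (-θ)) κ hH1 (Real.rpow_le_rpow_of_exponent_ge hδ (by linarith)
      (by linarith)) hκ2).trans (ENNReal.ofReal_le_ofReal ?_))
    · rintro t ⟨⟨t0, t1⟩, u, ⟨hu1, hu2⟩, hu3⟩
      exact ⟨t0, t1, u, hu1, hu2, hu3⟩
    · refine mul_le_mul_of_nonneg_right ?_ (by linarith)
      have e1 : κ ^ (-(2 * V)) = A ^ (2 * V) * 2 ^ (2 * V ^ 2) * δ ^ (2 * V ^ 2) := by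
        rw [hκ, Real.mul_rpow (by positivity) (by positivity), one_div, Real.inv_rpow hA0.le,
          Real.rpow_neg hA0.le, inv_inv, ← Real.rpow_mul (by positivity), Real.mul_rpow (by norm_num) hδ.le]
        have : -V * -(2 * V) = 2 * V ^ 2 := by ring
        rw [this]
        ring
      have e2 : C * δ ^ (-θ) * δ ^ (-(V ^ 2 + 1)) * κ ^ (-(2 * V)) = C' * δ ^ (V ^ 2 - 1 - θ) := by
        have e3 : δ ^ (V ^ 2 - 1 - θ) = δ ^ (-θ) * δ ^ (-(V ^ 2 + 1)) * δ ^ (2 * V ^ 2) := by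
          rw [← Real.rpow_add hδ, ← Real.rpow_add hδ]
          congr 1
          ring
        rw [e1, e3, hC']
        ring
      have e4 : δ ^ (θ + 1) ≤ δ := by
        calc δ ^ (θ + 1) ≤ δ ^ (1:ℝ) := Real.rpow_le_rpow_of_exponent_ge hδ (by linarith) (by linarith)
          _ = δ := Real.rpow_one δ
      rw [e2]
      linarith

end Pool.Agent.Results.MP_80d0cf_nt.LargeValuesInWindows
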