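import Pool.Agent.Run7.h310.SQ.G3
import Pool.Agent.Run7.h310.SP.C1
import Pool.Agent.Run7.h701.SQ_CRED

set_option autoImplicit false

/-!
# The moments and the values of zeta near the critical line, sampled along almost every dilation of a separated sequence

The moments of all orders `2k`, `k > 0`, over the points where `|ζ|` is at most `(2d)^(-V)`, for all `V > k` (the moment
formula) and for all `V < k` (then the values near the level dominate), and the frequency of the values of size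
`(2d)^(-V)` for every real `V`: large values, small values, values in an interval (for `V = 0` the local form of the
central limit theorem).

Plan, limit theorem, exponential sums and assembly by helper310; the passage from mean squares and complex moments to
sample points by helper270 and helper701 on the starting library `N748/MG`.
-/

namespace Pool.Agent.Results.MP_80d0cf_nt.MetricValues

open Filter Topology MeasureTheory

/-- the arithmetic factor of the moment conjecture,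
`a(k) = ∏_p (1 - 1/p)^{k²} Σ_m (k (k+1) ... (k+m-1) / m!)² p^{-m}` -/
noncomputable def ak (k : ℝ) : ℝ :=
  ∏' p : Nat.Primes, ((1 - 1 / (p : ℝ)) ^ (k ^ 2) *
    ∑' m : ℕ, (∏ i ∈ Finset.range m, (k + i) / ((i : ℝ) + 1)) ^ 2 * (1 / (p : ℝ)) ^ m)

/-- the modulus of zeta at distance `d` from the critical line and height `t` -/
noncomputable def z (d t : ℝ) : ℝ := ‖riemannZeta (1 / 2 + d + t * Complex.I)‖

open Classical in
/-- the moment of order `2k` over the first `N` points `α x_n + β` at which `|ζ| ≤ l` -/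
noncomputable def M (k l d α β : ℝ) (x : ℕ → ℝ) (N : ℕ) : ℝ :=
  (1 / (N : ℝ)) * ∑ n ∈ Finset.range N, if z d (α * x n + β) ≤ l then z d (α * x n + β) ^ (2 * k) else 0

open Classical in
/-- the proportion of the first `N` points `α x_n + β` at which the value of `|ζ|` has the property `Q` -/
noncomputable def P (Q : ℝ → Prop) (d α β : ℝ) (x : ℕ → ℝ) (N : ℕ) : ℝ :=
  (((Finset.range N).filter fun n : ℕ => Q (z d (α * x n + β))).card : ℝ) / N

/-- the size of the frequencies -/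
noncomputable def F (V d : ℝ) : ℝ := ak V * (2 * d) ^ (V ^ 2) / Real.sqrt (Real.pi * Real.log (1 / (2 * d)))

open Run7.h310.SP Run7.h310.SQ Pool.Agent.N748.MG

lemma M_eq (k c d α β : ℝ) (x : ℕ → ℝ) (N : ℕ) : M k c d α β x N = MI k c d (fun i => α * x i + β) N := by
  classical
  unfold M MI
  rw [Finset.sum_filter]
  rfl

lemma P_eq (Q : ℝ → Prop) (d α β : ℝ) (x : ℕ → ℝ) (N : ℕ) (inst : DecidablePred fun n : ℕ => Q (mz d (α * x n + β))) :
    P Q d α β x N = ((@Finset.filter ℕ (fun n : ℕ => Q (mz d (α * x n + β))) inst (Finset.range N)).card : ℝ) / N := by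
  unfold P
  congr!

/-- the normalisation -/
lemma to_F {V K : ℝ} {d : ℕ → ℝ} {X : ℕ → ℝ} (hd0 : ∀ᶠ N in atTop, 0 < d N) (hd : Tendsto d atTop (𝓝 0)) (hpos : 0 < ak V)
    (h : Tendsto (fun N => GN V (d N) * X N) atTop (𝓝 (ak V * K))) :
    Tendsto (fun N => X N / F V (d N)) atTop (𝓝 K) := by
  have h2 := h.div_const (ak V)
  have e : ak V * K / ak V = K := by field_simp
  rw [e] at h2
  refine h2.congr' ?_
  filter_upwards [hd0, hd.eventually_lt_const (show (0:ℝ) < 1 / 4 by norm_num)] with N g1 g2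
  have h3 : (0:ℝ) < 2 * d N := by linarith
  have hlog : 0 < Real.log (1 / (2 * d N)) := by
    apply Real.log_pos
    rw [lt_div_iff₀ h3]
    linarith
  have hs : 0 < Real.sqrt (Real.pi * Real.log (1 / (2 * d N))) := Real.sqrt_pos.2 (mul_pos Real.pi_pos hlog)
  have h4 : (2 * d N) ^ (-(V ^ 2)) = ((2 * d N) ^ (V ^ 2))⁻¹ := Real.rpow_neg h3.le _
  have h5 : (0:ℝ) < (2 * d N) ^ (V ^ 2) := Real.rpow_pos_of_pos h3 _
  unfold F GN
  rw [h4]
  field_simp

theorem result (s : ℝ) (hs : 0 < s) (x : ℕ → ℝ) (hx0 : ∀ n, 0 ≤ x n) (hx : ∀ m n, m ≠ n → s ≤ |x m - x n|) :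
    (∀ V : ℝ, 0 < ak V) ∧
    ∀ᵐ α : ℝ, 0 < α → ∀ (β : ℝ) (d : ℕ → ℝ) (D : ℝ), (∀ᶠ N in atTop, 0 < d N) → Tendsto d atTop (𝓝 0) →
      Tendsto (fun N : ℕ => d N * Real.log N / Real.log (1 / d N) ^ 2) atTop atTop →
      (∀ᶠ N : ℕ in atTop, ∀ n < N, x n ≤ N * d N ^ (-D)) →
      (∀ k V : ℝ, 0 < k → k < V →
        Tendsto (fun N : ℕ => M k ((2 * d N) ^ (-V)) (d N) α β x N / (ak k * (2 * d N) ^ (-(k ^ 2)))) atTop (𝓝 1)) ∧
      (∀ k V c : ℝ, 0 < k → V < k → 0 < c → Tendsto (fun N : ℕ =>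
        (2 * d N) ^ (2 * k * V) * M k (c * (2 * d N) ^ (-V)) (d N) α β x N / F V (d N)) atTop
        (𝓝 (c ^ (2 * (k - V)) / (2 * (k - V))))) ∧
      (∀ V c : ℝ, 0 < V → 0 < c → Tendsto (fun N : ℕ => P (fun w => c * (2 * d N) ^ (-V) < w) (d N) α β x N / F V (d N))
        atTop (𝓝 (c ^ (-(2 * V)) / (2 * V)))) ∧
      (∀ V c : ℝ, V < 0 → 0 < c → Tendsto (fun N : ℕ => P (fun w => w < c * (2 * d N) ^ (-V)) (d N) α β x N / F V (d N))
        atTop (𝓝 (c ^ (-(2 * V)) / (-(2 * V))))) ∧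
      (∀ V a b : ℝ, 0 < a → a ≤ b → Tendsto (fun N : ℕ =>
        P (fun w => a * (2 * d N) ^ (-V) < w ∧ w ≤ b * (2 * d N) ^ (-V)) (d N) α β x N / F V (d N)) atTop
        (𝓝 (∫ u in (Real.log a)..(Real.log b), Real.exp (-(2 * V * u))))) := by
  classical
  have hak : ∀ V, ak V = akR V := fun V => rfl
  have hpos : ∀ V, 0 < ak V := fun V => (aC_akR V).1
  refine ⟨hpos, ?_⟩
  filter_upwards [ms_fin redF hs hx0 hx, ms_ld (t_ctw nicF) Run7.h701.SP.t_CRED hs hx0 hx]
    with α hα hα2 hα0 β d D hd0 hd hdL hgr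
  have hlaw : ∀ V, Law d (fun i => α * x i + β) V (ak V) ∧ Zf d (fun i => α * x i + β) V := by
    intro V
    have := hα2 hα0 β d D hd0 hd hdL hgr V
    rwa [aC_re, ← hak] at this
  refine ⟨fun k V hk hV => ?_, fun k V c hk hV hc => ?_, fun V c hV hc => ?_, fun V c hV hc => ?_, fun V a b ha hab => ?_⟩
  · have h := hα hα0 β d D hd0 hd hdL hgr k V hk hV
    rw [aC_re, ← hak] at h
    have h2 := h.div_const (ak k)
    rw [div_self (hpos k).ne'] at h2
    refine h2.congr' ?_
    filter_upwards [hd0] with N hN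
    rw [M_eq]
    have h3 : (0:ℝ) < 2 * d N := by linarith
    have h4 : (2 * d N) ^ (-(k ^ 2)) = ((2 * d N) ^ (k ^ 2))⁻¹ := Real.rpow_neg h3.le _
    have h5 : (0:ℝ) < (2 * d N) ^ (k ^ 2) := Real.rpow_pos_of_pos h3 _
    have h6 := hpos k
    rw [h4]
    field_simp
  · refine to_F hd0 hd (hpos V) ?_
    refine (law_frozen hd0 (hlaw V).2 (hlaw V).1 hk hV hc).congr fun N => ?_
    rw [M_eq]
  · refine to_F hd0 hd (hpos V) ?_
    refine (law_large hd0 hd (hlaw V).2 (hlaw V).1 hV hc).congr fun N => ?_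
    rw [P_eq (fun w => c * (2 * d N) ^ (-V) < w)]
  · refine to_F hd0 hd (hpos V) ?_
    refine (law_small hd0 hd (hlaw V).2 (hlaw V).1 hV hc).congr fun N => ?_
    rw [P_eq (fun w => w < c * (2 * d N) ^ (-V))]
  · refine to_F hd0 hd (hpos V) ?_
    refine (law_mid hd0 hd (hlaw V).2 (hlaw V).1 ha hab).congr fun N => ?_
    rw [P_eq (fun w => a * (2 * d N) ^ (-V) < w ∧ w ≤ b * (2 * d N) ^ (-V))]

end Pool.Agent.Results.MP_80d0cf_nt.MetricValues
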