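import Pool.Agent.Run7.h518.SW.Closed
import Pool.Agent.Run7.h518.SW.Der

/-!
# The sixth and the eighth moment of zeta in almost all windows near the critical line, with the full main term

Write `s = 1 + 2δ` and

`P_k(δ) = ζ(s)^(k²) ∏_p (1 - p^(-s))^(k²) ∑_m C(m+k-1, m)² p^(-ms)`.

Then `P_3(δ) = ζ(s)^9 ∏_p (1 - p^(-s))^4 (1 + 4 p^(-s) + p^(-2s))` and
`P_4(δ) = ζ(s)^16 ∏_p (1 - p^(-s))^9 (1 + 9 p^(-s) + 9 p^(-2s) + p^(-3s))`: these are the Euler products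
of the page, moved to the point `s`; for `δ → 0` one gets the constants of the page,
`(2δ)^9 P_3(δ) → ∏_p (1 - 1/p)^4 (1 + 4/p + 1/p²)` and
`(2δ)^16 P_4(δ) → ∏_p (1 - 1/p)^9 (1 + 9/p + 9/p² + 1/p³)`.

Unconditionally, for every `k ≥ 1` and every `D`, for all `t` in `(0, T]` outside one set of measure
at most `T (log T)^(-D)`,

`(1/H) ∫_t^{t+H} |ζ(1/2 + δ + iu)|^(2k) du = P_k(δ) + O((log T)^(-D))`

on ALL the lines `C loglog T / log T ≤ δ ≤ 1/30` and for ALL the windows `(log T)^F ≤ H ≤ T^(cδ)` at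
once, and the same holds for the derivatives in `δ` of both sides of all orders up to `D`. The
exceptional set does not depend on the line: the difference of the two sides is a holomorphic function
of the distance, of size at most a power of `T`, and such a function is small in a disc as soon as it
is small at `O(log T)` points of a circle.
-/

set_option autoImplicit false

namespace Pool.Agent.Results.MP_80d0cf_nt.SixthAndEighthInWindows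

open MeasureTheory Finset Complex Filter Topology

noncomputable section

/-- The `2k`-th moment over the window `[t, t + H]` at distance `δ` from the critical line. -/
def M (k : ℕ) (δ t H : ℝ) : ℝ :=
  (1 / H) * ∫ u in t..(t + H), ‖riemannZeta (1 / 2 + δ + u * I)‖ ^ (2 * k)

/-- `p^(-(1 + 2δ))` -/
def x (δ : ℝ) (p : Nat.Primes) : ℝ := (p : ℝ) ^ (-(1 + 2 * δ))

/-- The main term `ζ(1+2δ)^(k²) ∏_p (1 - x_p)^(k²) ∑_m C(m+k-1, m)² x_p^m`, `x_p = p^(-(1+2δ))`. -/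
def P (k : ℕ) (δ : ℝ) : ℝ := ‖riemannZeta (1 + 2 * δ)‖ ^ (k ^ 2) *
  ∏' p : Nat.Primes, ((1 - x δ p) ^ (k ^ 2) *
    ∑' m : ℕ, (((m + k - 1).choose m : ℕ) : ℝ) ^ 2 * x δ p ^ m)

/-- The Euler product of the page for `m_6`. -/
def a₃ : ℝ := ∏' p : Nat.Primes, ((1 - 1 / (p : ℝ)) ^ 4 * (1 + 4 * (1 / (p : ℝ)) + (1 / (p : ℝ)) ^ 2))

/-- The Euler product of the page for `m_8`. -/
def a₄ : ℝ := ∏' p : Nat.Primes, ((1 - 1 / (p : ℝ)) ^ 9 *
  (1 + 9 * (1 / (p : ℝ)) + 9 * (1 / (p : ℝ)) ^ 2 + (1 / (p : ℝ)) ^ 3))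

lemma P_eq (k : ℕ) (δ : ℝ) : P k δ = Run7.h518.SW.MM k δ := rfl

lemma z_conj (δ u : ℝ) : riemannZeta (1 / 2 + δ + u * I) *
    (starRingEnd ℂ) (riemannZeta (1 / 2 + δ + u * I)) =
    ((‖riemannZeta (1 / 2 + δ + u * I)‖ ^ 2 : ℝ) : ℂ) := by
  rw [Complex.mul_conj, Complex.normSq_eq_norm_sq]

lemma ZZ_eq (k : ℕ) (δ u : ℝ) :
    Run7.h518.SW.ZZ δ (0 : Fin k → ℝ) (0 : Fin k → ℝ) u =
      ((‖riemannZeta (1 / 2 + δ + u * I)‖ ^ (2 * k) : ℝ) : ℂ) := by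
  unfold Run7.h518.SW.ZZ Pool.Agent.Y746.OA.sp
  rw [map_prod, ← prod_mul_distrib]
  have h : ∀ j : Fin k, riemannZeta (((1 / 2 + δ : ℝ) : ℂ) + ((u + (0 : Fin k → ℝ) j : ℝ)) * I) *
      (starRingEnd ℂ) (riemannZeta (((1 / 2 + δ : ℝ) : ℂ) + ((u + (0 : Fin k → ℝ) j : ℝ)) * I)) =
        ((‖riemannZeta (1 / 2 + δ + u * I)‖ ^ 2 : ℝ) : ℂ) := by
    intro j
    rw [Pi.zero_apply, add_zero, ← z_conj]
    push_cast
    rfl
  refine (prod_congr rfl fun j _ => h j).trans ?_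
  rw [prod_const, card_univ, Fintype.card_fin, pow_mul]
  push_cast
  rfl

lemma mean_eq (k : ℕ) (δ t : ℝ) {H : ℝ} (hH : 0 ≤ H) :
    Run7.h518.SW.wm (Run7.h518.SW.ZZ δ (0 : Fin k → ℝ) (0 : Fin k → ℝ)) H t =
      ((M k δ t H : ℝ) : ℂ) := by
  unfold Run7.h518.SW.wm M
  simp_rw [ZZ_eq]
  rw [integral_complex_ofReal, ← intervalIntegral.integral_of_le hH,
    intervalIntegral.integral_comp_add_left
      (fun u : ℝ => ‖riemannZeta (1 / 2 + δ + u * I)‖ ^ (2 * k)), add_zero]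
  push_cast
  ring

/-- The moments near the critical line in almost all windows, with the full main term. -/
theorem result :
    (∀ δ : ℝ, 0 < δ → P 3 δ = ‖riemannZeta (1 + 2 * δ)‖ ^ 9 *
      ∏' p : Nat.Primes, ((1 - x δ p) ^ 4 * (1 + 4 * x δ p + x δ p ^ 2))) ∧
    (∀ δ : ℝ, 0 < δ → P 4 δ = ‖riemannZeta (1 + 2 * δ)‖ ^ 16 *
      ∏' p : Nat.Primes, ((1 - x δ p) ^ 9 * (1 + 9 * x δ p + 9 * x δ p ^ 2 + x δ p ^ 3))) ∧
    Tendsto (fun δ : ℝ => (2 * δ) ^ 9 * P 3 δ) (𝓝[>] 0) (𝓝 a₃) ∧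
    Tendsto (fun δ : ℝ => (2 * δ) ^ 16 * P 4 δ) (𝓝[>] 0) (𝓝 a₄) ∧
    ∀ k : ℕ, 1 ≤ k → ∃ c : ℝ, 0 < c ∧ ∀ D : ℕ, ∃ (F : ℕ) (C T₀ : ℝ), ∀ T : ℝ, T₀ ≤ T →
      (∀ δ : ℝ, C * Real.log (Real.log T) / Real.log T ≤ δ → δ ≤ 1 / 30 →
        Real.log T ^ F ≤ T ^ (c * δ)) ∧
      volume {t : ℝ | 0 < t ∧ t ≤ T ∧ ∃ δ : ℝ, C * Real.log (Real.log T) / Real.log T ≤ δ ∧
        δ ≤ 1 / 30 ∧ ∃ H : ℝ, Real.log T ^ F ≤ H ∧ H ≤ T ^ (c * δ) ∧ ∃ m : ℕ, m ≤ D ∧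
        ¬ (DifferentiableAt ℝ (iteratedDeriv m fun y => M k y t H - P k y) δ ∧
          |iteratedDeriv m (fun y => M k y t H - P k y) δ| ≤ 1 / Real.log T ^ D)} ≤
        ENNReal.ofReal (T / Real.log T ^ D) := by
  refine ⟨fun δ hδ => Run7.h518.SW.MM3 hδ, fun δ hδ => Run7.h518.SW.MM4 hδ, ?_, ?_, ?_⟩
  · have h := Run7.h518.SW.MM_tendsto (k := 3) (by norm_num)
    rw [Run7.h518.SW.lim3] at h
    exact h
  · have h := Run7.h518.SW.MM_tendsto (k := 4) (by norm_num)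
    rw [Run7.h518.SW.lim4] at h
    exact h
  · intro k hk
    obtain ⟨c, hc, h⟩ := Run7.h518.SW.all_deriv k k
    refine ⟨c, hc, fun D => ?_⟩
    obtain ⟨F, C, T0, hC, hT0, g⟩ := h D
    refine ⟨F, C, T0, fun T hT => ?_⟩
    obtain ⟨g1, g2⟩ := g T hT
    have hTp : 0 < T := (Real.exp_pos _).trans_le (hT0.trans hT)
    have hLp : 0 < Real.log T := by
      have h1 := (Real.le_log_iff_exp_le hTp).2 (hT0.trans hT)
      exact (Real.exp_pos _).trans_le h1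
    refine ⟨g1, ?_⟩
    have hz : ∀ j : Fin k, |(0 : Fin k → ℝ) j| ≤ T / 4 := by
      intro j
      rw [Pi.zero_apply, abs_zero]
      linarith
    refine le_trans (measure_mono ?_) (g2 0 0 hz hz)
    rintro t ⟨t0, t1, δ, d1, d2, H, a1, a2, m, hm, a3⟩
    have hH : 0 ≤ H := le_trans (by positivity) a1
    refine ⟨⟨t0, t1⟩, δ, d1, d2, H, a1, a2, m, hm, fun y => M k y t H - P k y, ?_, a3⟩
    intro y hy0 hy1
    rw [Run7.h518.SW.Ec_real, mean_eq k y t hH, Run7.h518.SW.dd_closed hk hy0 (by linarith),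
      ← Complex.ofReal_sub]
    rfl

end

end Pool.Agent.Results.MP_80d0cf_nt.SixthAndEighthInWindows
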